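import Pool.Agent.GsK.Kx
import Pool.Agent.GsK.Kp

/-!
# Polynomial sequences of systems whose tail is a factor of (discrete spectrum) x (Gaussian)

`V` is a compact metrizable abelian group with Haar probability `m`, `α ∈ V` is ARBITRARY: by Halmos and von
Neumann the rotations `v ↦ v + α` are, up to isomorphism, all ergodic systems with discrete spectrum.
`(W, ω, R)` is an ergodic Gaussian system. `T(ξ)_i = ξ_i + ξ_(i+1)`, `ξ_d = β = d! lc(p) α`, is an affine
unipotent map of `V^d` and `x_j(ξ)` is the first coordinate of `T^j ξ`. The point `ξ₀` of `V^d` has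
`x_j(T^n ξ₀) = p(n + j) α`; it is generic for a probability `η`, and `T` is ergodic for `η`: so `(V^d, η, T)` is the
ergodic (infinite-step) nilsystem on the orbit closure of `ξ₀`. If the rotation is totally ergodic, `η` is Haar
measure.

(1) For the product system `V × W` itself and every bounded measurable `f`: for a.e. `x = (v, w)` the sequence
`f (τ^(p n) x)` has the unique Furstenberg system law of `(f (v + x_j(ξ), w_j))_j` with `ξ` of law `η` and independent `w_j` of law
`ω`; it is ergodic; if `f` is injective (`W` standard Borel) the map `(ξ, w) ↦ (f (v + x_j(ξ), w_j))_j` is a measurable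
embedding, so the Furstenberg system is isomorphic to the product of the ergodic nilsystem `(V^d, η, T)` and the Bernoulli shift
over `(W, ω)`.

(2) `(Z, ζ, Q)` is a factor of the product `V × W`, `(Y, ν, S)` an invertible measure preserving system with an
exhausting sub-sigma-algebra `A` (`S⁻¹ A ⊆ A`, the `Sⁿ A` generate everything mod `ν`) whose tail, the sets which
lie mod `ν` in every `S⁻ⁿ A`, comes from a factor map `ρ` onto `Z`. For every bounded measurable `g` there is a
measurable `Φ : V × [0, 1] → D` (with the conditional laws `CondLaw`) such that for almost every `y` there is a `v` in `V`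
for which the sequence `g (S^(p n) y)` has the unique Furstenberg system law of `(Φ (v + x_j(ξ), u_j))_j`, `u_j` independent and
uniform; it is ergodic, a factor of the nilsystem `(V^d, η, T)` x Bernoulli. If the rotation is totally ergodic the laws do not
depend on `v`. If `V` is a point the law is that of an independent sequence, the Bernoulli shift with the law of `g` (by `CondLaw`).

Proof: twisted averages on independent copies of the Gaussian system (Bourgain's theorem on the moment
curve for an action on `W^(k+1)` times a circle), transported to the diagonal by the Gaussian identity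
`(k + 1) ∑ |x_j|² = |∑ x_j|² + (1/2) ∑ |x_i - x_j|²`; Weyl's theorem in binomial form, all cases; the generic measure by
compactness; totality of characters times Gaussian exponentials; maximal inequality; reduction to the tail parts; a
measurable selection. The characters of `V` separate its points by the Peter-Weyl theorem of
`Pool.Agent.MP_820cde_gt.PW` and a common eigenvector.
-/

set_option autoImplicit false

namespace Pool.Agent.Results.MP_931127_an.KroneckerGaussian

open MeasureTheory Pool.Agent.GsF

theorem result {V Y Z W : Type*} [AddCommGroup V] [TopologicalSpace V] [IsTopologicalAddGroup V]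
    [CompactSpace V] [T2Space V] [SecondCountableTopology V] [MeasurableSpace V] [BorelSpace V]
    (m : Measure V) [m.IsAddHaarMeasure] [IsProbabilityMeasure m] (α : V)
    (A : MeasurableSpace Y) [MeasurableSpace Y] [MeasurableSpace Z] [MeasurableSpace W]
    (ν : Measure Y) [IsProbabilityMeasure ν] (S : Y ≃ᵐ Y) (hA : Exh A ν S)
    (ζ : Measure Z) (Q : Z ≃ᵐ Z) (ρ : Y → Z) (hρ : Fac ν S ζ Q ρ)
    (htail : ∀ D : Set Y, MeasurableSet D →
      (∀ n : ℤ, ∃ D' : Set Y, MeasurableSet[Al A S n] D' ∧ D =ᵐ[ν] D') →
      ∃ E : Set Z, MeasurableSet E ∧ D =ᵐ[ν] ρ ⁻¹' E)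
    (ω : Measure W) (R : W ≃ᵐ W) (X : ℕ → W → ℝ) (hW : GSys ω R X)
    (π : V × W → Z) (hπ : Fac (m.prod ω) ((rotV α).prodCongr R) ζ Q π)
    (p : Polynomial ℤ) (hp : 2 ≤ p.natDegree)
    (C : ℝ) (hC : 0 ≤ C) (g : Y → ℂ) (hg : Measurable g) (hgC : ∀ y, ‖g y‖ ≤ C)
    (d : ℕ) (hd : d = p.natDegree) (β : V) (hβ : β = ((d.factorial : ℤ) * p.leadingCoeff) • α) :
    ∃ (ξ0 : Fin d → V) (η : Measure (Fin d → V)), IsProbabilityMeasure η ∧ Base p α β ξ0 ∧
      Gen β ξ0 η ∧ Ergodic (una β) η ∧ (TotErg m α → η = Measure.pi fun _ => m) ∧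
      (∀ (ξ : Fin d → V) (j : ℤ), xo β (una β ξ) j = xo β ξ (j + 1) ∧
        ∀ h : 0 < d, xo β ξ 0 = ξ ⟨0, h⟩) ∧
      (∃ Φ : V → unitInterval → Metric.closedBall (0 : ℂ) C, Measurable (Function.uncurry Φ) ∧
        CondLaw m ω π ν ζ ρ C (toD C g hgC) Φ ∧ ErgV η β volume Φ ∧
        (TotErg m α → ConV η β volume Φ) ∧
        FurY ν S p C hC g hgC η β Φ) ∧
      ∀ (f : V × W → ℂ) (_ : Measurable f) (hfC : ∀ x, ‖f x‖ ≤ C),
        FurV m ω α R p C hC f hfC η β ∧ ErgV η β ω (Function.curry (toD C f hfC)) ∧
        (TotErg m α → ConV η β ω (Function.curry (toD C f hfC))) ∧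
        (StandardBorelSpace W → Function.Injective f → EmbV d β (Function.curry (toD C f hfC))) := by
  subst hd
  have hV : CharSep V := char_sep V
  have hω : IsProbabilityMeasure ω := hW.gauss.isProbabilityMeasure
  have hCs : CompactSpace (Metric.closedBall (0 : ℂ) C) :=
    isCompact_iff_compactSpace.1 (isCompact_closedBall 0 C)
  have hd : 0 < p.natDegree := by omega
  have hlc : p.leadingCoeff ≠ 0 := by
    rw [Ne, Polynomial.leadingCoeff_eq_zero]
    rintro rfl
    simp at hp
  obtain ⟨ξ0, hξ0⟩ := orbit p (by omega) α (0 : V)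
  have hξ : Base p α β ξ0 := by
    intro n j
    have h1 := hξ0 n j
    rw [← hβ, zero_add] at h1
    exact h1
  obtain ⟨η, hη1, hη⟩ := eta_exists hV β ξ0
  have hT := eta_erg hV β ξ0 η hη
  have hhaar : TotErg m α → η = Measure.pi fun _ => m := by
    intro hα
    refine eta_haar m hV β (fun χ hχ n hn h0 => ?_) ξ0 η hη
    have h1 := chr_free m α hα χ hχ ((n : ℤ) * ((p.natDegree.factorial : ℤ) * p.leadingCoeff)) (by
      refine mul_ne_zero ?_ (mul_ne_zero ?_ hlc)
      · exact_mod_cast (by omega : n ≠ 0)
      · exact_mod_cast (Nat.factorial_pos _).ne')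
    apply h1
    rw [mul_smul, ← hβ, natCast_zsmul, map_nsmul]
    exact h0
  refine ⟨ξ0, η, hη1, hξ, hη, hT, hhaar, fun ξ j => ⟨xo_una hd β ξ j, fun _ => xo_zero hd β ξ⟩, ?_, ?_⟩
  · have hG : Measurable (toD C g hgC) := hg.subtype_mk
    obtain ⟨Φ, hΦ, hΦψ⟩ := phi_exists C hC m ω hρ.mp π hπ.mp _ hG
    refine ⟨Φ, hΦ, ?_, fun v => lawV_erg volume C η hd β hT Φ hΦ v, fun hα => ?_, ?_⟩
    · intro ψ h hh hb hce
      obtain ⟨h', hh', hb', hce', hv⟩ := hΦψ ψ
      have h1 := ce_unique m ω π hπ.mp _ h' h hh' hh ⟨_, hb'⟩ hb hce' hce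
      filter_upwards [h1] with v h2
      rw [hv v, h2]
    · rw [hhaar hα]
      exact lawV_const m hd β volume Φ hΦ
    · exact fur_y m hV α hA hρ htail hW hπ p hp β ξ0 hξ η hη C hC g hg hgC Φ hΦ hΦψ
  · intro f hf hfC
    have hG : Measurable (Function.uncurry (Function.curry (toD C f hfC))) := hf.subtype_mk
    refine ⟨fur_v m hV α ω R X hW p hp β ξ0 hξ η hη C hC f hf hfC,
      fun v => lawV_erg ω C η hd β hT _ hG v, fun hα => ?_, fun _ hinj v => ?_⟩
    · rw [hhaar hα]
      exact lawV_const m hd β ω _ hG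
    refine thU_emb C hC _ β _ (trV_meas _ hG v) fun x y hxy => ?_
    have h1 : (v + x.1, x.2) = (v + y.1, y.2) := hinj (congrArg Subtype.val hxy)
    have h2 := (Prod.mk.injEq _ _ _ _).mp h1
    exact Prod.ext (add_left_cancel h2.1) h2.2

end Pool.Agent.Results.MP_931127_an.KroneckerGaussian
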